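import Pool.Agent.E8helper60.DC.Fin

/-!
# Dade's conjecture for groups with `O_p(G)` central: an upper bound or one weighted sum decides

Let `p` be a prime number (`p = 2` is allowed), `F` an algebraically closed field of characteristic `p`
and `red` a ring homomorphism from the algebraic integers to `F`. A `p`-block `B` of a finite group
`G` is (the central character of) a block of `F[G]`: an algebra homomorphism from the centre of `F[G]`
(the class functions `G → F` with the convolution product) to `F`. An irreducible character `θ` of a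
subgroup `H` satisfies `bl(θ)^G = B` if `B` is the composition of the restriction of class functions
from `G` to `H` with the reduction of the central character of `θ`.

Proof. Let `Z = O_p(G)` be central, `|Z|_p = p^z`, and `P_λ(x) = ∑_d S_d(B, λ) x^d` for the alternating
sums which count the characters over `λ ∈ Irr(Z)`. Let `Γ` be the factor group of `G × G`, or of
`G ≀ C_q` with a prime number `q ≠ p`, which identifies the tuples of elements of `Z` with the same
product. Then `O_p(Γ)` is the image of `Z`, the block `B` defines a block `B'` of `Γ`, and the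
generating functions of `B'` satisfy `x^z P'_λ = P_λ^2`, and
`q x^((q - 1) z) P'_λ(x) = P_λ(x)^q + (q ^ 2 - 1) P_λ(x^q)`, respectively. The sum of the squares of
real polynomials vanishes only if all of them vanish; the equivalences follow from this idea and the
two recursions.
-/

set_option autoImplicit false

noncomputable section

namespace Pool.Agent.Results.MP_3f89b9_al.CentralCoreH60

open Pool.Agent.Q99.AS (altSum)
open Pool.Agent.Y63.NV (IsClassFun IsBlock centralValue)
open Pool.Agent.Y63.AWC (IsIrreducibleCharacter)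

variable {F : Type} [Field F]

/-- `k^d(B_σ)` for `G_σ = H`: the number of the irreducible characters `θ` of the subgroup `H` of
`p`-defect `d` with `bl(θ)^G = B`. -/
def kB (p : ℕ) (red : integralClosure ℤ ℂ →+* F) {G : Type} [Group G] (B : (G → F) → F) (d : ℕ)
    (H : Subgroup G) : ℕ :=
  Nat.card {θ : H → ℂ // (IsIrreducibleCharacter θ ∧
      ∀ f : G → F, IsClassFun f → centralValue red θ (fun x => f x) = B f) ∧
    ∃ n : ℕ, θ 1 = (n : ℂ) ∧ n.factorization p + d = (Nat.card H).factorization p}

/-- `k^d(B_σ, λ)` for `G_σ = H`: the number of the irreducible characters `θ` of the subgroup `H` of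
`p`-defect `d` with `bl(θ)^G = B` which lie over the linear character `λ` of the central subgroup `Z`,
that is, `θ(z) = θ(1) λ(z)` for `z ∈ Z`. -/
def kBl (p : ℕ) (red : integralClosure ℤ ℂ →+* F) {G : Type} [Group G] (B : (G → F) → F)
    {Z : Subgroup G} (lam : Z →* ℂˣ) (d : ℕ) (H : Subgroup G) : ℕ :=
  Nat.card {θ : H → ℂ // (IsIrreducibleCharacter θ ∧
      ∀ f : G → F, IsClassFun f → centralValue red θ (fun x => f x) = B f) ∧
    (∀ (z : Z) (hz : (z : G) ∈ H), θ ⟨z, hz⟩ = θ 1 * (lam z : ℂ)) ∧
    ∃ n : ℕ, θ 1 = (n : ℂ) ∧ n.factorization p + d = (Nat.card H).factorization p}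

/-- Dade's alternating sum `S_d(B) = ∑_σ (-1)^|σ| k^d(B_σ)` over representatives `σ` of the
`G`-classes of chains `Z = D_0 < D_1 < ⋯ < D_n` of `p`-subgroups of `G`, `|σ| = n ≥ 0`. -/
def S (p : ℕ) (red : integralClosure ℤ ℂ →+* F) {G : Type} [Group G] (Z : Subgroup G)
    (B : (G → F) → F) (d : ℕ) : ℤ :=
  altSum p Z (fun H => (kB p red B d H : ℤ))

/-- The alternating sum `S_d(B, λ) = ∑_σ (-1)^|σ| k^d(B_σ, λ)` over the same representatives. -/
def Sl (p : ℕ) (red : integralClosure ℤ ℂ →+* F) {G : Type} [Group G] {Z : Subgroup G}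
    (lam : Z →* ℂˣ) (B : (G → F) → F) (d : ℕ) : ℤ :=
  altSum p Z (fun H => (kBl p red B lam d H : ℤ))

/-- All ordinary irreducible characters of `B` have `p`-defect larger than `v_p|Z|` (the defect groups
of `B` properly contain the central `p`-subgroup `Z`). -/
def LargerDefect (p : ℕ) (red : integralClosure ℤ ℂ →+* F) {G : Type} [Group G] (Z : Subgroup G)
    (B : (G → F) → F) : Prop :=
  ∀ χ : G → ℂ, IsIrreducibleCharacter χ →
    (∀ f : G → F, IsClassFun f → centralValue red χ f = B f) →
    ∃ n : ℕ, χ 1 = (n : ℂ) ∧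
      n.factorization p + (Nat.card Z).factorization p < (Nat.card G).factorization p

/-- The triples of Dade's conjecture: a finite group `G` for which `Z = O_p(G)` is central (`Z` is a
central `p`-subgroup which contains all normal `p`-subgroups) and a block `B` of `G` whose defect
groups properly contain `Z`. -/
def Adm (p : ℕ) (red : integralClosure ℤ ℂ →+* F) (G : Type) (i : Group G) (Z : Subgroup G)
    (B : (G → F) → F) : Prop :=
  Finite G ∧ IsPGroup p Z ∧ Z ≤ Subgroup.center G ∧
    (∀ Q : Subgroup G, Q.Normal → IsPGroup p Q → Q ≤ Z) ∧ IsBlock B ∧ LargerDefect p red Z B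

/-- The conditions for the ordinary sums, for the groups with `O_p(G)` in the class `R`. -/
def Ordinary (p : ℕ) (red : integralClosure ℤ ℂ →+* F) (R : (Z : Type) → Group Z → Prop) (t : ℝ) :
    List Prop :=
  [∀ (G : Type) [i : Group G] (Z : Subgroup G) (B : (G → F) → F), Adm p red G i Z B →
     R Z inferInstance → ∀ d, S p red Z B d = 0,
   ∀ (G : Type) [i : Group G] (Z : Subgroup G) (B : (G → F) → F), Adm p red G i Z B →
     R Z inferInstance → ∀ (lam : Z →* ℂˣ) (d : ℕ), Sl p red lam B d = 0,
   ∀ ε : ℝ, 0 < ε → ∃ c : ℝ, ∀ (G : Type) [i : Group G] (Z : Subgroup G) (B : (G → F) → F),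
     Adm p red G i Z B → R Z inferInstance → ∀ d, (S p red Z B d : ℝ) ≤ c * (Nat.card G : ℝ) ^ ε,
   ∀ ε : ℝ, 0 < ε → ∃ c : ℝ, ∀ (G : Type) [i : Group G] (Z : Subgroup G) (B : (G → F) → F),
     Adm p red G i Z B → R Z inferInstance →
       ∑ d ∈ Finset.range (Nat.card G), (S p red Z B d : ℝ) * t ^ d ≤ c * (Nat.card G : ℝ) ^ ε]

/-! ### translations -/

open Pool.Agent.E8helper60.DC Pool.Agent.E8helper60.DD Pool.Agent.Q90.WR

section

variable {p : ℕ} (red : integralClosure ℤ ℂ →+* F) {A G : Type} [CommGroup A] [Finite A] [Group G]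

theorem S_eq [Finite G] {j : A →* G} (hj : ∀ a x, j a * x = x * j a) {Z : Subgroup G}
    (hZ : Z = j.range) (B : (G → F) → F) (d : ℕ) :
    S p red Z B d = ∑ l : A →* ℂˣ, SdL p red B j l d := by
  subst hZ
  rw [← sum_SdL red hj]
  unfold S
  refine congrArg _ (funext fun H => ?_)
  unfold kB anum
  congr 1
  refine Nat.card_congr (Equiv.subtypeEquivRight fun θ => ?_)
  rw [mem_IndB]

theorem Sl_eq [Finite G] {j : A →* G} (hj : ∀ a x, j a * x = x * j a) {Z : Subgroup G}
    (hZ : Z = j.range) {l : A →* ℂˣ} {lam : Z →* ℂˣ}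
    (h : ∀ (a : A) (ha : j a ∈ Z), lam ⟨j a, ha⟩ = l a) (B : (G → F) → F) (d : ℕ) :
    Sl p red lam B d = SdL p red B j l d := by
  subst hZ
  unfold Sl SdL
  refine altSum_congr fun σ => ?_
  have hcen : j.range ≤ Subgroup.center G := by
    rintro _ ⟨a, rfl⟩
    rw [Subgroup.mem_center_iff]
    intro g
    exact (hj a g).symm
  have hH : ∀ a, j a ∈ Pool.Agent.Y63.KR.chainStabilizer σ := fun a =>
    cen_le_stab hcen σ ⟨a, rfl⟩
  unfold kBl anum
  congr 1
  refine Nat.card_congr (Equiv.subtypeEquivRight fun θ => ?_)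
  constructor
  · rintro ⟨h1, h2, h3⟩
    refine ⟨⟨(mem_IndB red).2 h1, ?_⟩, h3⟩
    refine (ovQ_iff hH l θ).2 ((ovL_weak _ (cen_cod hj hH) h1.1 l).2 fun a => ?_)
    exact (h2 ⟨j a, a, rfl⟩ (hH a)).trans
      (congrArg (fun u : ℂˣ => θ 1 * (u : ℂ)) (h a ⟨a, rfl⟩))
  · rintro ⟨⟨h1, h2⟩, h3⟩
    have h1' := (mem_IndB red).1 h1
    refine ⟨h1', ?_, h3⟩
    rintro ⟨_, a, rfl⟩ hz
    exact ((ovL_weak _ (cen_cod hj hH) h1'.1 l).1 ((ovQ_iff hH l θ).1 h2) a).trans
      (congrArg (fun u : ℂˣ => θ 1 * (u : ℂ)) (h a ⟨a, rfl⟩).symm)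

omit [Finite A] in
theorem adm_of {j : A →* G} {B : (G → F) → F} (hA : IsPGroup p A)
    (h : AdmA True p red j B) : Adm p red G inferInstance j.range B := by
  refine ⟨h.fin, pGroup_range hA j, ?_, h.max trivial, h.blk, ?_⟩
  · rintro _ ⟨a, rfl⟩
    rw [Subgroup.mem_center_iff]
    intro g
    exact (h.cen a g).symm
  · have h1 : Nat.card j.range = Nat.card A :=
      (Nat.card_congr (MonoidHom.ofInjective h.inj).toEquiv).symm
    intro χ h2 h3
    rw [h1]
    exact h.pos χ h2 h3

omit [Finite A] in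
theorem admA_of {Z : Subgroup G} {B : (G → F) → F} (h : Adm p red G inferInstance Z B)
    {j : A →* G} (hj : Function.Injective j) (hZ : Z = j.range) : AdmA True p red j B := by
  subst hZ
  obtain ⟨h1, h2, h3, h4, h5, h6⟩ := h
  refine ⟨h1, hj, ?_, fun _ => h4, h5, ?_⟩
  · intro a x
    exact (Subgroup.mem_center_iff.1 (h3 ⟨a, rfl⟩) x).symm
  · have h7 : Nat.card j.range = Nat.card A :=
      (Nat.card_congr (MonoidHom.ofInjective hj).toEquiv).symm
    intro χ h8 h9
    rw [← h7]
    exact h6 χ h8 h9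

theorem sum_range_card [Finite G] (f : ℕ → ℤ) (hf : ∀ d, (Nat.card G).factorization p < d → f d = 0)
    (t : ℝ) : ∑ d ∈ Finset.range (Nat.card G), (f d : ℝ) * t ^ d =
      ∑ d ∈ Finset.range ((Nat.card G).factorization p + 1), (f d : ℝ) * t ^ d := by
  symm
  refine Finset.sum_subset (fun d hd => ?_) fun d _ hd => ?_
  · rw [Finset.mem_range] at hd ⊢
    exact lt_of_lt_of_le hd (Nat.factorization_lt p Nat.card_pos.ne')
  · rw [Finset.mem_range, not_lt] at hd
    rw [hf d (by omega), Int.cast_zero, zero_mul]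

omit [Finite A] in
theorem ev_PzL [Finite G] (B : (G → F) → F) (j : A →* G) (l : A →* ℂˣ) (t : ℝ) :
    ev t (PzL p red B j l) =
      ∑ d ∈ Finset.range (Nat.card G), (SdL p red B j l d : ℝ) * t ^ d := by
  rw [sum_range_card (p := p) _ (fun d hd => SdL_zero_of_lt red B j l hd)]
  unfold ev PzL
  rw [Polynomial.map_sum, Polynomial.eval_finsetSum]
  refine Finset.sum_congr rfl fun d _ => ?_
  rw [Polynomial.map_mul, Polynomial.map_pow, Polynomial.map_C, Polynomial.map_X,
    Polynomial.eval_mul, Polynomial.eval_pow, Polynomial.eval_C, Polynomial.eval_X]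
  rfl

theorem exists_model {Z : Subgroup G} (hle : Z ≤ Subgroup.center G) :
    ∃ (A : Type) (_ : CommGroup A) (j : A →* G) (e : A ≃* Z), Function.Injective j ∧
      Z = j.range ∧ ∀ a, (e a : G) = j a := by
  refine ⟨Z, { (inferInstance : Group Z) with
    mul_comm := fun a b => Subtype.ext (Subgroup.mem_center_iff.1 (hle b.2) a) },
    Z.subtype, MulEquiv.refl _, Subtype.val_injective, Z.range_subtype.symm, fun a => rfl⟩

variable [IsAlgClosed F] [hp : Fact p.Prime] [CharP F p]

/-- the conclusion for one group -/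
theorem concl {G : Type} [Group G] {Z : Subgroup G} {B : (G → F) → F}
    (h : Adm p red G inferInstance Z B) (lam : Z →* ℂˣ)
    (H : ∀ (A : Type) [CommGroup A] [Finite A], IsPGroup p A → ∀ (e : A ≃* Z)
      (P : (A →* ℂˣ) → Polynomial ℤ) (N m : ℕ), FS red True p A P N m →
        P (lam.comp e.toMonoidHom) = 0) : ∀ d, Sl p red lam B d = 0 := by
  intro d
  obtain ⟨A, iA, j, e, h1, h2, h3⟩ := exists_model h.2.2.1
  have hfin : Finite G := h.1
  have hfA : Finite A := Finite.of_injective j h1
  have hpA : IsPGroup p A := IsPGroup.of_equiv h.2.1 e.symm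
  have hadm := admA_of red h h1 h2
  have hdef : DefGe p red B 0 := by
    obtain ⟨χ, k1, k2⟩ := Pool.Agent.E8helper46.AW.exists_char (p := p) red h.2.2.2.2.1
    obtain ⟨n, k3, k4⟩ := h.2.2.2.2.2 χ k1 k2
    exact ⟨χ, k1, k2, n, k3, by omega⟩
  have h4 := H A hpA e (fun l => PzL p red B j l) (Nat.card G) 0
    ⟨G, inferInstance, j, B, hadm, fun l => rfl, rfl, hdef⟩
  have h5 : Sl p red lam B d = SdL p red B j (lam.comp e.toMonoidHom) d := by
    refine Sl_eq red hadm.cen h2 (fun a ha => ?_) B d
    have h6 : (⟨j a, ha⟩ : Z) = e a := Subtype.ext (h3 a).symm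
    rw [h6]
    rfl
  rw [h5, ← PzL_coeff, h4, Polynomial.coeff_zero]

end

/-- **Dade's conjecture for central `O_p(G)`: an upper bound or one weighted sum decides.** Let `t > 1`
be a real number and let `R` be a class of finite abelian `p`-groups which is closed under isomorphisms
(for instance all of them, or the groups isomorphic to a given one). The following are equivalent:
(i) `S_d(B) = 0` for all `d`, all finite groups `G` for which `Z = O_p(G)` is central and belongs to
`R`, and all blocks `B` of `G` whose defect groups properly contain `Z`;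
(ii) `S_d(B, λ) = 0` for all `d`, all these `(G, B)` and all `λ ∈ Irr(Z)`;
(iii) for every `ε > 0` there is a constant `c` with `S_d(B) ≤ c |G|^ε` for all `d` and all `(G, B)`;
(iv) for every `ε > 0` there is a constant `c` with `∑_d S_d(B) t^d ≤ c |G|^ε` for all `(G, B)`. -/
theorem result (p : ℕ) [Fact p.Prime] (F : Type) [Field F] [IsAlgClosed F] [CharP F p]
    (red : integralClosure ℤ ℂ →+* F) (t : ℝ) (ht : 1 < t) (R : (Z : Type) → Group Z → Prop)
    (hR : ∀ (Y Z : Type) [Group Y] [Group Z], (Y ≃* Z) → R Y inferInstance → R Z inferInstance) :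
    List.TFAE (Ordinary p red R t) := by
  obtain ⟨q, hqp, hq⟩ : ∃ q, p < q ∧ q.Prime := by
    obtain ⟨q, h1, h2⟩ := Nat.exists_infinite_primes (p + 1)
    exact ⟨q, h1, h2⟩
  -- the class of a group of the family
  have hRj : ∀ {A Γ : Type} [CommGroup A] [Group Γ] {G : Type} [Group G] {Z : Subgroup G}
      {j : A →* Γ}, Function.Injective j → (A ≃* Z) → R Z inferInstance →
      R j.range inferInstance := by
    intro A Γ _ _ G _ Z j hj e h
    exact hR _ _ (e.symm.trans (MonoidHom.ofInjective hj)) h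
  unfold Ordinary
  tfae_have 2 → 1 := by
    intro h G _ Z B h1 h2 d
    obtain ⟨A, iA, j, e, h3, h4, h6⟩ := exists_model h1.2.2.1
    have hfin : Finite G := h1.1
    have hfA : Finite A := Finite.of_injective j h3
    have hadm := admA_of red h1 h3 h4
    rw [S_eq red hadm.cen h4]
    refine Finset.sum_eq_zero fun l _ => ?_
    have h5 : Sl p red (l.comp e.symm.toMonoidHom) B d = SdL p red B j l d := by
      refine Sl_eq red hadm.cen h4 (fun a ha => ?_) B d
      have h7 : (⟨j a, ha⟩ : Z) = e a := Subtype.ext (h6 a).symm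
      rw [h7]
      exact congrArg l (e.symm_apply_apply a)
    rw [← h5]
    exact h G Z B h1 h2 _ d
  tfae_have 1 → 3 := by
    intro h ε hε
    refine ⟨0, fun G _ Z B h1 h2 d => ?_⟩
    rw [h G Z B h1 h2 d]
    simp
  tfae_have 1 → 4 := by
    intro h ε hε
    refine ⟨0, fun G _ Z B h1 h2 => ?_⟩
    simp [h G Z B h1 h2]
  tfae_have 3 → 2 := by
    intro h G _ Z B h1 h2 lam
    refine concl red h1 lam fun A _ _ hA e P N m hP => ?_
    refine (famV red hA hq hqp.ne').upper hq (fun ε hε => ?_) P N m hP _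
    obtain ⟨c, hc⟩ := h ε hε
    refine ⟨c, ?_⟩
    rintro P N m ⟨Γ, iΓ, j, B', h3, h4, rfl, -⟩ d
    have hfin := h3.fin
    have h5 := hc Γ j.range B' (adm_of red hA h3) (hRj h3.inj e h2) d
    rw [S_eq red h3.cen rfl] at h5
    simp only [h4, PzL_coeff]
    exact h5
  tfae_have 4 → 2 := by
    intro h G _ Z B h1 h2 lam
    refine concl red h1 lam fun A _ _ hA e P N m hP => ?_
    refine (famV red hA hq hqp.ne').weighted hq ht (fun ε hε => ?_) P N m hP _
    obtain ⟨c, hc⟩ := h ε hε
    refine ⟨c, ?_⟩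
    rintro P N m ⟨Γ, iΓ, j, B', h3, h4, rfl, -⟩
    have hfin := h3.fin
    have h5 := hc Γ j.range B' (adm_of red hA h3) (hRj h3.inj e h2)
    simp only [S_eq red h3.cen rfl] at h5
    simp only [h4, ev_PzL]
    refine le_trans (le_of_eq ?_) h5
    rw [Finset.sum_comm]
    refine Finset.sum_congr rfl fun d _ => ?_
    push_cast
    rw [Finset.sum_mul]
  tfae_finish

end Pool.Agent.Results.MP_3f89b9_al.CentralCoreH60
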