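import Pool.Agent.E8helper46.PD.Real

/-!
# Dade's ordinary conjecture for odd primes: real blocks and real characters decide

Let `p` be an odd prime and `O` a valuation ring of `ℂ` whose maximal ideal contains `p`; blocks,
defect groups and block induction are defined by central characters modulo the maximal ideal of `O`
(`Pool.Agent.H254R3.IN`). Notation:

* `AdmB p O G B`: `G` is a finite group with `O_p(G) = 1` and `B` is a block of `G` with a nontrivial
  defect group;
* `S_d(B) = S p O d B = ∑_σ (-1)^|σ| k^d(B_σ)`, Dade's alternating sum over the classes of chains of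
  nontrivial `p`-subgroups (the empty chain included);
* `gal τ B = {τ ∘ χ : χ ∈ B}` for a field automorphism `τ` of `ℂ`; `numConj B` is the number of the
  sets `gal τ B`, and `galNum θ` the number of the functions `τ ∘ θ`;
* `TReal p O d B` (`TOdd p O d B`) is the number of classes of pairs `(σ, θ)`, `σ` a chain and `θ` an
  irreducible character of `G_σ` of `p`-defect `d` with `bl(θ)^G = B` which is real valued (which has
  an odd number of Galois conjugates `τ ∘ θ`);
* `WrS B` is the block of `G ≀ C₂` above `B ⊗ B` and `WrM B B'` the set of the characters of `G ≀ C₂`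
  induced from the products of a character in `B` and one in `B'`.

Proof. For blocks `B ≠ B'` the set `WrM B B'` is a block of `G ≀ C₂`. The characters of the
stabilisers `G_σ × G_τ` and `G_σ ≀ C₂` whose block induces to it are determined here; with the
functional identity of `Pool.Agent.Q90.WR.functional` this gives
`S_d(WrM B B') = ∑_{i+j=d} S_i(B) S_j(B')`, and `S_d(gal τ B) = S_d(B)`. So if `B' = gal τ B ≠ B` and
all `S_d(WrM B B')` vanish then all `S_d(B)` vanish; if `τ` has order two on `B`, the new block has
fewer Galois conjugates. By induction it is enough to treat the blocks with an odd number of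
conjugates. These are stable under the passage to `WrS B`, and a block with an odd number of
conjugates is stable under a subgroup of odd index of the Galois group, so that modulo two only the
characters with an odd number of conjugates have to be counted.
-/

set_option autoImplicit false

noncomputable section

namespace Pool.Agent.Results.MP_3f89b9_al.OddBlocksOddCharactersH46

open Pool.Agent.Y63.KR (alternatingSum chainSetoid chainStabilizer)
open Pool.Agent.Q90.WR (Wr IndS AdmB)
open Pool.Agent.Q259.BW (WrS)
open Pool.Agent.H254R3.IN (IsBlock IsIrr)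
open Pool.Agent.Q288.MB (gal numConj WrM)
open Pool.Agent.E8helper46.PD (RealSet TReal TOdd galNum)

/-- `k^d(B_σ)` for `G_σ = H`: the number of the irreducible characters `θ` of the subgroup `H` of
`p`-defect `d` with `bl(θ)^G = B`. -/
def kB (p : ℕ) (O : ValuationSubring ℂ) (d : ℕ) {G : Type} [Group G] (B : Set (G → ℂ))
    (H : Subgroup G) : ℕ :=
  Nat.card {θ : H → ℂ // θ ∈ IndS O B (Subtype.val : H → G) ∧
    ∃ n : ℕ, θ 1 = (n : ℂ) ∧ n.factorization p + d = (Nat.card H).factorization p}

/-- Dade's alternating sum `∑_σ (-1)^|σ| k^d(B_σ)` over representatives `σ` of the `G`-classes of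
chains of nontrivial `p`-subgroups of `G`, the empty chain included. -/
def S (p : ℕ) (O : ValuationSubring ℂ) (d : ℕ) {G : Type} [Group G] (B : Set (G → ℂ)) : ℤ :=
  alternatingSum p G (fun H => (kB p O d B H : ℤ))

/-- **Dade's ordinary conjecture for odd primes: real blocks and real characters decide.** Let `p` be
an odd prime.
(1) The following are equivalent: `S_d(B) = 0` for all `d`, all finite groups `G` with `O_p(G) = 1`
and all blocks `B` of `G` with nontrivial defect groups; for all such `d`, `G` and all such `B` which
are closed under complex conjugation, the number of classes of pairs `(σ, θ)` with `θ` real valued,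
of defect `d` and with `bl(θ)^G = B`, is even; for all such `d`, `G` and all such `B` with an odd
number of Galois conjugates, the number of classes of such pairs in which `θ` has an odd number of
Galois conjugates is even.
(2) The same for every class `C` of such pairs `(G, B)` closed under `(G, B) ↦ (G ≀ C₂, WrS B)` and
under `(G, B) ↦ (G ≀ C₂, WrM B (τ B))` for all `τ` with `τ B ≠ B` and `τ τ B = B`.
(3) For different blocks `B`, `B'` of a finite group `G` the set `WrM B B'` is a block of `G ≀ C₂`
with `S_d(WrM B B') = ∑_{i+j=d} S_i(B) S_j(B')`.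
(4) Blocks with an odd number of Galois conjugates are closed under complex conjugation, and
irreducible characters with an odd number of Galois conjugates are real valued. -/
theorem result (p : ℕ) [Fact p.Prime] (hp2 : p ≠ 2) (O : ValuationSubring ℂ)
    (hpO : (p : ℂ) ∈ O.nonunits) :
    (List.TFAE [
      ∀ (G : Type) [Group G] (B : Set (G → ℂ)), AdmB p O G B → ∀ d, S p O d B = 0,
      ∀ (G : Type) [Group G] (B : Set (G → ℂ)), AdmB p O G B → RealSet B →
        ∀ d, Even (TReal p O d B),
      ∀ (G : Type) [Group G] (B : Set (G → ℂ)), AdmB p O G B → Odd (numConj B) →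
        ∀ d, Even (TOdd p O d B)]) ∧
    (∀ C : (G : Type) → Group G → Set (G → ℂ) → Prop,
      (∀ (G : Type) [i : Group G] (B : Set (G → ℂ)), C G i B → AdmB p O G B) →
      (∀ (G : Type) [i : Group G] (B : Set (G → ℂ)), C G i B → C (Wr G) inferInstance (WrS B)) →
      (∀ (G : Type) [i : Group G] (B : Set (G → ℂ)) (τ : ℂ ≃+* ℂ), C G i B → gal τ B ≠ B →
        gal τ (gal τ B) = B → C (Wr G) inferInstance (WrM B (gal τ B))) →
      List.TFAE [
        ∀ (G : Type) [i : Group G] (B : Set (G → ℂ)), C G i B → ∀ d, S p O d B = 0,
        ∀ (G : Type) [i : Group G] (B : Set (G → ℂ)), C G i B → RealSet B →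
          ∀ d, Even (TReal p O d B),
        ∀ (G : Type) [i : Group G] (B : Set (G → ℂ)), C G i B → Odd (numConj B) →
          ∀ d, Even (TOdd p O d B)]) ∧
    (∀ (G : Type) [Group G] [Finite G] (B B' : Set (G → ℂ)), IsBlock O B → IsBlock O B' →
      B ≠ B' → IsBlock O (WrM B B') ∧ ∀ d, S p O d (WrM B B') =
        ∑ t ∈ Finset.HasAntidiagonal.antidiagonal d, S p O t.1 B * S p O t.2 B') ∧
    (∀ (G : Type) [Group G] [Finite G],
      (∀ B : Set (G → ℂ), IsBlock O B → Odd (numConj B) → RealSet B) ∧
      ∀ θ : G → ℂ, IsIrr θ → Odd (galNum θ) → ∀ g, (θ g).im = 0) := by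
  have key := fun (C : (G : Type) → Group G → Set (G → ℂ) → Prop) h1 h2 h3 =>
    Pool.Agent.E8helper46.PD.main_tfae (p := p) (O := O) hp2 hpO C h1 h2 h3
  refine ⟨?_, key, ?_, ?_⟩
  · exact key (fun G i B => AdmB p O G B) (fun G _ B h => h) (fun G _ B h => h.wr hp2 hpO)
      (fun G _ B τ h h1 _ => Pool.Agent.E8helper46.PD.AdmB.mix hp2 hpO h h1)
  · intro G _ _ B B' hB hB' hne
    have := Fintype.ofFinite G
    exact ⟨Pool.Agent.Q288.MB.wrM_block hB hB' hne,
      fun d => Pool.Agent.E8helper46.PD.blkDef_mix hp2 hpO hB hB' hne d⟩
  · intro G _ _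
    have := Fintype.ofFinite G
    exact ⟨fun B hB ho => Pool.Agent.Q288.MB.real_of_odd hB.irr ho,
      fun θ hθ ho g => Pool.Agent.E8helper46.PD.real_of_galNum hθ ho g⟩

end Pool.Agent.Results.MP_3f89b9_al.OddBlocksOddCharactersH46
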