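import Pool.Agent.E8helper60.DC.Fin

/-!
# Dade's conjecture, projective sums: one congruence or an upper bound decides, for each `λ`

Let `p` be a prime number (`p = 2` is allowed), `F` an algebraically closed field of characteristic `p`
and `red` a ring homomorphism from the algebraic integers to `F`. A `p`-block `B` of a finite group
`G` is (the central character of) a block of `F[G]`: an algebra homomorphism from the centre of `F[G]`
(the class functions `G → F` with the convolution product) to `F`. An irreducible character `θ` of a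
subgroup `H` satisfies `bl(θ)^G = B` if `B` is the composition of the restriction of class functions
from `G` to `H` with the reduction of the central character of `θ`.

Proof. Let `Z = O_p(G)` be central, `|Z| = p^z`, `λ ∈ Irr(Z)` and `P(x) = ∑_d S_d(B, λ) x^d` for the
alternating sums `S_d(B, λ)` which count the characters over `λ`. Let `Γ` be the factor group of `G × G`,
or of `G ≀ C_q` with a prime number `q ≠ p`, which identifies the tuples of elements of `Z` with the
same product. Then `O_p(Γ)` is the image of `Z`, the block `B` defines a block `B'` of `Γ`, and the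
generating function `P'` of `(B', λ)` satisfies `x^z P' = P^2`, and
`q x^((q - 1) z) P'(x) = P(x)^q + (q ^ 2 - 1) P(x^q)`, respectively. The pair `(Z, λ)` does not change.
The equivalences follow from the two recursions.
-/

set_option autoImplicit false

noncomputable section

namespace Pool.Agent.Results.MP_3f89b9_al.ProjectiveSumsH60

open Pool.Agent.Q99.AS (altSum)
open Pool.Agent.Y63.NV (IsClassFun IsBlock centralValue)
open Pool.Agent.Y63.AWC (IsIrreducibleCharacter)

variable {F : Type} [Field F]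

/-- `k^d(B_σ, λ)` for `G_σ = H`: the number of the irreducible characters `θ` of the subgroup `H` of
`p`-defect `d` with `bl(θ)^G = B` which lie over the linear character `λ` of the central subgroup `Z`,
that is, `θ(z) = θ(1) λ(z)` for `z ∈ Z`. -/
def k (p : ℕ) (red : integralClosure ℤ ℂ →+* F) {G : Type} [Group G] (B : (G → F) → F)
    {Z : Subgroup G} (lam : Z →* ℂˣ) (d : ℕ) (H : Subgroup G) : ℕ :=
  Nat.card {θ : H → ℂ // (IsIrreducibleCharacter θ ∧
      ∀ f : G → F, IsClassFun f → centralValue red θ (fun x => f x) = B f) ∧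
    (∀ (z : Z) (hz : (z : G) ∈ H), θ ⟨z, hz⟩ = θ 1 * (lam z : ℂ)) ∧
    ∃ n : ℕ, θ 1 = (n : ℂ) ∧ n.factorization p + d = (Nat.card H).factorization p}

/-- Dade's alternating sum `S_d(B, λ) = ∑_σ (-1)^|σ| k^d(B_σ, λ)` over representatives `σ` of the
`G`-classes of chains `Z = D_0 < D_1 < ⋯ < D_n` of `p`-subgroups of `G`, `|σ| = n ≥ 0`. -/
def S (p : ℕ) (red : integralClosure ℤ ℂ →+* F) {G : Type} [Group G] {Z : Subgroup G}
    (lam : Z →* ℂˣ) (B : (G → F) → F) (d : ℕ) : ℤ :=
  altSum p Z (fun H => (k p red B lam d H : ℤ))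

/-- All ordinary irreducible characters of `B` have `p`-defect larger than `v_p|Z|` (the central
`p`-subgroup `Z` is a proper subgroup of the defect groups of `B`). -/
def LargerDefect (p : ℕ) (red : integralClosure ℤ ℂ →+* F) {G : Type} [Group G] (Z : Subgroup G)
    (B : (G → F) → F) : Prop :=
  ∀ χ : G → ℂ, IsIrreducibleCharacter χ →
    (∀ f : G → F, IsClassFun f → centralValue red χ f = B f) →
    ∃ n : ℕ, χ 1 = (n : ℂ) ∧
      n.factorization p + (Nat.card Z).factorization p < (Nat.card G).factorization p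

/-- `B` contains an ordinary irreducible character of `p`-defect at least `n` (the defect of `B` is at
least `n`). -/
def DefectGe (p : ℕ) (red : integralClosure ℤ ℂ →+* F) {G : Type} [Group G] (B : (G → F) → F)
    (n : ℕ) : Prop :=
  ∃ χ : G → ℂ, IsIrreducibleCharacter χ ∧
    (∀ f : G → F, IsClassFun f → centralValue red χ f = B f) ∧
    ∃ k : ℕ, χ 1 = (k : ℂ) ∧ k.factorization p + n ≤ (Nat.card G).factorization p

/-- The triples of Dade's conjecture: a finite group `G` for which `Z = O_p(G)` is central (`Z` is a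
central `p`-subgroup which contains all normal `p`-subgroups) and a block `B` of `G` whose defect
groups properly contain `Z`. -/
def Adm (p : ℕ) (red : integralClosure ℤ ℂ →+* F) (G : Type) (i : Group G) (Z : Subgroup G)
    (B : (G → F) → F) : Prop :=
  Finite G ∧ IsPGroup p Z ∧ Z ≤ Subgroup.center G ∧
    (∀ Q : Subgroup G, Q.Normal → IsPGroup p Q → Q ≤ Z) ∧ IsBlock B ∧ LargerDefect p red Z B

/-- The four conditions. -/
def Conditions (p : ℕ) (red : integralClosure ℤ ℂ →+* F)
    (R : (Z : Type) → (i : Group Z) → (Z →* ℂˣ) → Prop) (m n₀ : ℕ) (t : ℝ) : List Prop :=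
  [∀ (G : Type) [i : Group G] (Z : Subgroup G) (B : (G → F) → F) (lam : Z →* ℂˣ),
     Adm p red G i Z B → R Z inferInstance lam → ∀ d, S p red lam B d = 0,
   ∀ (G : Type) [i : Group G] (Z : Subgroup G) (B : (G → F) → F) (lam : Z →* ℂˣ),
     Adm p red G i Z B → R Z inferInstance lam → DefectGe p red B n₀ →
       ∀ d, (m : ℤ) ∣ S p red lam B d,
   ∀ ε : ℝ, 0 < ε → ∃ c : ℝ, ∀ (G : Type) [i : Group G] (Z : Subgroup G) (B : (G → F) → F)
     (lam : Z →* ℂˣ), Adm p red G i Z B → R Z inferInstance lam →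
       ∀ d, (S p red lam B d : ℝ) ≤ c * (Nat.card G : ℝ) ^ ε,
   ∀ ε : ℝ, 0 < ε → ∃ c : ℝ, ∀ (G : Type) [i : Group G] (Z : Subgroup G) (B : (G → F) → F)
     (lam : Z →* ℂˣ), Adm p red G i Z B → R Z inferInstance lam →
       ∑ d ∈ Finset.range (Nat.card G), (S p red lam B d : ℝ) * t ^ d ≤
         c * (Nat.card G : ℝ) ^ ε]

/-! ### translations -/

open Pool.Agent.E8helper60.DC Pool.Agent.E8helper60.DD Pool.Agent.Q90.WR

section

variable {p : ℕ} (red : integralClosure ℤ ℂ →+* F) {A G : Type} [CommGroup A] [Finite A] [Group G]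

theorem S_eq [Finite G] {j : A →* G} (hj : ∀ a x, j a * x = x * j a) {Z : Subgroup G}
    (hZ : Z = j.range) {l : A →* ℂˣ} {lam : Z →* ℂˣ}
    (h : ∀ (a : A) (ha : j a ∈ Z), lam ⟨j a, ha⟩ = l a) (B : (G → F) → F) (d : ℕ) :
    S p red lam B d = SdL p red B j l d := by
  subst hZ
  unfold S SdL
  refine altSum_congr fun σ => ?_
  have hcen : j.range ≤ Subgroup.center G := by
    rintro _ ⟨a, rfl⟩
    rw [Subgroup.mem_center_iff]
    intro g
    exact (hj a g).symm
  have hH : ∀ a, j a ∈ Pool.Agent.Y63.KR.chainStabilizer σ := fun a =>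
    cen_le_stab hcen σ ⟨a, rfl⟩
  unfold k anum
  congr 1
  refine Nat.card_congr (Equiv.subtypeEquivRight fun θ => ?_)
  constructor
  · rintro ⟨h1, h2, h3⟩
    refine ⟨⟨(mem_IndB red).2 h1, ?_⟩, h3⟩
    refine (ovQ_iff hH l θ).2 ((ovL_weak _ (cen_cod hj hH) h1.1 l).2 fun a => ?_)
    exact (h2 ⟨j a, a, rfl⟩ (hH a)).trans
      (congrArg (fun u : ℂˣ => θ 1 * (u : ℂ)) (h a ⟨a, rfl⟩))
  · rintro ⟨⟨h1, h2⟩, h3⟩
    have h1' := (mem_IndB red).1 h1
    refine ⟨h1', ?_, h3⟩
    rintro ⟨_, a, rfl⟩ hz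
    exact ((ovL_weak _ (cen_cod hj hH) h1'.1 l).1 ((ovQ_iff hH l θ).1 h2) a).trans
      (congrArg (fun u : ℂˣ => θ 1 * (u : ℂ)) (h a ⟨a, rfl⟩).symm)

omit [Finite A] in
theorem adm_of {j : A →* G} {B : (G → F) → F} (hA : IsPGroup p A)
    (h : AdmA True p red j B) : Adm p red G inferInstance j.range B := by
  refine ⟨h.fin, pGroup_range hA j, ?_, h.max trivial, h.blk, ?_⟩
  · rintro _ ⟨a, rfl⟩
    rw [Subgroup.mem_center_iff]
    intro g
    exact (h.cen a g).symm
  · have h1 : Nat.card j.range = Nat.card A :=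
      (Nat.card_congr (MonoidHom.ofInjective h.inj).toEquiv).symm
    intro χ h2 h3
    rw [h1]
    exact h.pos χ h2 h3

omit [Finite A] in
theorem admA_of {Z : Subgroup G} {B : (G → F) → F} (h : Adm p red G inferInstance Z B)
    {j : A →* G} (hj : Function.Injective j) (hZ : Z = j.range) : AdmA True p red j B := by
  subst hZ
  obtain ⟨h1, h2, h3, h4, h5, h6⟩ := h
  refine ⟨h1, hj, ?_, fun _ => h4, h5, ?_⟩
  · intro a x
    exact (Subgroup.mem_center_iff.1 (h3 ⟨a, rfl⟩) x).symm
  · have h7 : Nat.card j.range = Nat.card A :=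
      (Nat.card_congr (MonoidHom.ofInjective hj).toEquiv).symm
    intro χ h8 h9
    rw [← h7]
    exact h6 χ h8 h9

theorem defectGe_mono {G : Type} [Group G] {B : (G → F) → F} {m n : ℕ} (hmn : m ≤ n)
    (h : DefGe p red B n) : DefectGe p red B m := by
  obtain ⟨χ, h1, h2, k, h3, h4⟩ := h
  exact ⟨χ, h1, h2, k, h3, by omega⟩

/-- the family of one character -/
theorem famV_one {q z : ℕ} {L : Type} {S : (L → Polynomial ℤ) → ℕ → ℕ → Prop}
    (h : FamV q z L S) (l : L) :
    FamV q z Unit (fun P N m => ∃ P₀, S P₀ N m ∧ P () = P₀ l) := by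
  refine ⟨?_, ?_, ?_⟩
  · rintro P N m ⟨P₀, h1, h2⟩
    obtain ⟨P', N', h3, h4, h5⟩ := h.sq P₀ N m h1
    exact ⟨fun _ => P' l, N', fun _ => by rw [h2]; exact h3 l, h4, P', h5, rfl⟩
  · rintro P N m ⟨P₀, h1, h2⟩
    obtain ⟨P', N', h3, h4, h5⟩ := h.wr P₀ N m h1
    exact ⟨fun _ => P' l, N', fun _ => by rw [h2]; exact h3 l, h4, P', h5, rfl⟩
  · rintro P N m ⟨P₀, h1, -⟩
    exact h.pos P₀ N m h1

theorem sum_range_card [Finite G] (f : ℕ → ℤ) (hf : ∀ d, (Nat.card G).factorization p < d → f d = 0)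
    (t : ℝ) : ∑ d ∈ Finset.range (Nat.card G), (f d : ℝ) * t ^ d =
      ∑ d ∈ Finset.range ((Nat.card G).factorization p + 1), (f d : ℝ) * t ^ d := by
  symm
  refine Finset.sum_subset (fun d hd => ?_) fun d _ hd => ?_
  · rw [Finset.mem_range] at hd ⊢
    exact lt_of_lt_of_le hd (Nat.factorization_lt p Nat.card_pos.ne')
  · rw [Finset.mem_range, not_lt] at hd
    rw [hf d (by omega), Int.cast_zero, zero_mul]

omit [Finite A] in
theorem ev_PzL [Finite G] (B : (G → F) → F) (j : A →* G) (l : A →* ℂˣ) (t : ℝ) :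
    ev t (PzL p red B j l) =
      ∑ d ∈ Finset.range (Nat.card G), (SdL p red B j l d : ℝ) * t ^ d := by
  rw [sum_range_card (p := p) _ (fun d hd => SdL_zero_of_lt red B j l hd)]
  unfold ev PzL
  rw [Polynomial.map_sum, Polynomial.eval_finsetSum]
  refine Finset.sum_congr rfl fun d _ => ?_
  rw [Polynomial.map_mul, Polynomial.map_pow, Polynomial.map_C, Polynomial.map_X,
    Polynomial.eval_mul, Polynomial.eval_pow, Polynomial.eval_C, Polynomial.eval_X]
  rfl

/-- the character of the image -/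
def lamOf {j : A →* G} (hj : Function.Injective j) (l : A →* ℂˣ) : j.range →* ℂˣ :=
  l.comp (MonoidHom.ofInjective hj).symm.toMonoidHom

omit [Finite A] in
theorem lamOf_apply {j : A →* G} (hj : Function.Injective j) (l : A →* ℂˣ) (a : A)
    (ha : j a ∈ j.range) : lamOf hj l ⟨j a, ha⟩ = l a := by
  have h1 : (MonoidHom.ofInjective hj).symm ⟨j a, ha⟩ = a := by
    rw [MulEquiv.symm_apply_eq]
    rfl
  exact congrArg l h1

theorem exists_model {Z : Subgroup G} (hle : Z ≤ Subgroup.center G) :
    ∃ (A : Type) (_ : CommGroup A) (j : A →* G) (e : A ≃* Z), Function.Injective j ∧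
      Z = j.range ∧ ∀ a, (e a : G) = j a := by
  refine ⟨Z, { (inferInstance : Group Z) with
    mul_comm := fun a b => Subtype.ext (Subgroup.mem_center_iff.1 (hle b.2) a) },
    Z.subtype, MulEquiv.refl _, Subtype.val_injective, Z.range_subtype.symm, fun a => rfl⟩

variable [hp : Fact p.Prime] [CharP F p]

variable [IsAlgClosed F]

/-- the conclusion for one group -/
theorem concl {G : Type} [Group G] {Z : Subgroup G} {B : (G → F) → F}
    (h : Adm p red G inferInstance Z B) (lam : Z →* ℂˣ)
    (H : ∀ (A : Type) [CommGroup A] [Finite A], IsPGroup p A → ∀ (e : A ≃* Z)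
      (P : (A →* ℂˣ) → Polynomial ℤ) (N m : ℕ), FS red True p A P N m →
        P (lam.comp e.toMonoidHom) = 0) : ∀ d, S p red lam B d = 0 := by
  intro d
  obtain ⟨A, iA, j, e, h1, h2, h3⟩ := exists_model h.2.2.1
  have hfin : Finite G := h.1
  have hfA : Finite A := Finite.of_injective j h1
  have hpA : IsPGroup p A := IsPGroup.of_equiv h.2.1 e.symm
  have hadm := admA_of red h h1 h2
  have hdef : DefGe p red B 0 := by
    obtain ⟨χ, k1, k2⟩ := Pool.Agent.E8helper46.AW.exists_char (p := p) red h.2.2.2.2.1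
    obtain ⟨n, k3, k4⟩ := h.2.2.2.2.2 χ k1 k2
    exact ⟨χ, k1, k2, n, k3, by omega⟩
  have h4 := H A hpA e (fun l => PzL p red B j l) (Nat.card G) 0
    ⟨G, inferInstance, j, B, hadm, fun l => rfl, rfl, hdef⟩
  have h5 : S p red lam B d = SdL p red B j (lam.comp e.toMonoidHom) d := by
    refine S_eq red hadm.cen h2 (fun a ha => ?_) B d
    have h6 : (⟨j a, ha⟩ : Z) = e a := Subtype.ext (h3 a).symm
    rw [h6]
    rfl
  rw [h5, ← PzL_coeff, h4, Polynomial.coeff_zero]

end

/-- **Dade's conjecture, projective sums: one congruence, an upper bound or one weighted sum decides.**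
Let `R` be a class of pairs `(Z, λ)` of a finite abelian `p`-group `Z` and a linear character `λ` of `Z`
which is closed under isomorphisms (for instance all of them, or all the pairs isomorphic to a given
one), let `m` be a natural number which is divisible by a prime number different from `p`, `n₀` a natural
number and `t > 1` a real number. The following are equivalent:
(i) `S_d(B, λ) = 0` for all `d`, all finite groups `G` for which `Z = O_p(G)` is central, all blocks `B`
of `G` whose defect groups properly contain `Z`, and all `λ ∈ Irr(Z)` with `(Z, λ) ∈ R`;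
(ii) `m` divides `S_d(B, λ)` for all `d` and all `(G, B, λ)` as in (i) for which `B` has defect at least
`n₀`;
(iii) for every `ε > 0` there is a constant `c` with `S_d(B, λ) ≤ c |G|^ε` for all `d` and all
`(G, B, λ)` as in (i);
(iv) for every `ε > 0` there is a constant `c` with `∑_d S_d(B, λ) t^d ≤ c |G|^ε` for all these
`(G, B, λ)`. -/
theorem result (p : ℕ) [Fact p.Prime] (F : Type) [Field F] [IsAlgClosed F] [CharP F p]
    (red : integralClosure ℤ ℂ →+* F) (n₀ : ℕ) (t : ℝ) (ht : 1 < t)
    (R : (Z : Type) → (i : Group Z) → (Z →* ℂˣ) → Prop)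
    (hR : ∀ (Y Z : Type) [Group Y] [Group Z] (e : Y ≃* Z) (lam : Z →* ℂˣ),
      R Y inferInstance (lam.comp e.toMonoidHom) → R Z inferInstance lam)
    (m : ℕ) (hm : ∃ q : ℕ, q.Prime ∧ q ≠ p ∧ q ∣ m) :
    List.TFAE (Conditions p red R m n₀ t) := by
  obtain ⟨q, hq, hqp, hqm⟩ := hm
  have hRj : ∀ {A Γ : Type} [CommGroup A] [Group Γ] {G : Type} [Group G] {Z : Subgroup G}
      {j : A →* Γ} (hj : Function.Injective j) (e : A ≃* Z) (lam : Z →* ℂˣ),
      R Z inferInstance lam → R j.range inferInstance (lamOf hj (lam.comp e.toMonoidHom)) := by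
    intro A Γ _ _ G _ Z j hj e lam h
    refine hR _ _ (e.symm.trans (MonoidHom.ofInjective hj)) _ ?_
    have h1 : (lamOf hj (lam.comp e.toMonoidHom)).comp
        (e.symm.trans (MonoidHom.ofInjective hj)).toMonoidHom = lam := by
      refine MonoidHom.ext fun z => ?_
      refine congrArg lam ?_
      change e ((MonoidHom.ofInjective hj).symm ((MonoidHom.ofInjective hj) (e.symm z))) = z
      rw [MulEquiv.symm_apply_apply, MulEquiv.apply_symm_apply]
    rw [h1]
    exact h
  unfold Conditions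
  tfae_have 1 → 2 := by
    intro h G _ Z B lam h1 h2 _ d
    rw [h G Z B lam h1 h2 d]
    exact dvd_zero _
  tfae_have 1 → 3 := by
    intro h ε hε
    refine ⟨0, fun G _ Z B lam h1 h2 d => ?_⟩
    rw [h G Z B lam h1 h2 d]
    simp
  tfae_have 1 → 4 := by
    intro h ε hε
    refine ⟨0, fun G _ Z B lam h1 h2 => ?_⟩
    simp [h G Z B lam h1 h2]
  tfae_have 2 → 1 := by
    intro h G _ Z B lam h1 h2
    refine concl red h1 lam fun A _ _ hA e P N k hP => ?_
    refine (famV_one (famV red hA hq hqp) (lam.comp e.toMonoidHom)).congr hq n₀ ?_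
      (fun _ => P (lam.comp e.toMonoidHom)) N k ⟨P, hP, rfl⟩ ()
    rintro P N k ⟨P₀, ⟨Γ, iΓ, j, B', h3, h4, rfl, h5⟩, h6⟩ hk - d
    have hfin := h3.fin
    have h7 := h Γ j.range B' _ (adm_of red hA h3) (hRj h3.inj e lam h2)
      (defectGe_mono red hk h5) d
    rw [S_eq red h3.cen rfl (fun a ha => lamOf_apply h3.inj _ a ha)] at h7
    rw [h6, h4, PzL_coeff]
    exact (Int.natCast_dvd_natCast.2 hqm).trans h7
  tfae_have 3 → 1 := by
    intro h G _ Z B lam h1 h2
    refine concl red h1 lam fun A _ _ hA e P N k hP => ?_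
    refine (famV_one (famV red hA hq hqp) (lam.comp e.toMonoidHom)).upper hq (fun ε hε => ?_)
      (fun _ => P (lam.comp e.toMonoidHom)) N k ⟨P, hP, rfl⟩ ()
    obtain ⟨c, hc⟩ := h ε hε
    refine ⟨c, ?_⟩
    rintro P N k ⟨P₀, ⟨Γ, iΓ, j, B', h3, h4, rfl, -⟩, h6⟩ d
    have hfin := h3.fin
    have h7 := hc Γ j.range B' _ (adm_of red hA h3) (hRj h3.inj e lam h2) d
    rw [S_eq red h3.cen rfl (fun a ha => lamOf_apply h3.inj _ a ha)] at h7
    rw [Fintype.sum_unique]
    change (((P ()).coeff d : ℤ) : ℝ) ≤ _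
    rw [h6, h4, PzL_coeff]
    exact h7
  tfae_have 4 → 1 := by
    intro h G _ Z B lam h1 h2
    refine concl red h1 lam fun A _ _ hA e P N k hP => ?_
    refine (famV_one (famV red hA hq hqp) (lam.comp e.toMonoidHom)).weighted hq ht
      (fun ε hε => ?_) (fun _ => P (lam.comp e.toMonoidHom)) N k ⟨P, hP, rfl⟩ ()
    obtain ⟨c, hc⟩ := h ε hε
    refine ⟨c, ?_⟩
    rintro P N k ⟨P₀, ⟨Γ, iΓ, j, B', h3, h4, rfl, -⟩, h6⟩
    have hfin := h3.fin
    have h7 := hc Γ j.range B' _ (adm_of red hA h3) (hRj h3.inj e lam h2)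
    simp only [S_eq red h3.cen rfl (fun a ha => lamOf_apply h3.inj _ a ha)] at h7
    rw [Fintype.sum_unique]
    change ev t (P ()) ≤ _
    rw [h6, h4, ev_PzL]
    exact h7
  tfae_finish

end Pool.Agent.Results.MP_3f89b9_al.ProjectiveSumsH60
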