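import Pool.Agent.E8helper60.DD.Fin

/-!
# Dade's ordinary conjecture for all primes: one congruence, an upper bound or one weighted sum decides

Let `p` be a prime number (`p = 2` is allowed), `F` an algebraically closed field of characteristic `p`
and `red` a ring homomorphism from the algebraic integers to `F`. A `p`-block `B` of a finite group
`G` is (the central character of) a block of `F[G]`: an algebra homomorphism from the centre of `F[G]`
(the class functions `G → F` with the convolution product) to `F`. An irreducible character `θ` of a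
subgroup `H` satisfies `bl(θ)^G = B` if `B` is the composition of the restriction of class functions
from `G` to `H` with the reduction of the central character of `θ`.

Proof. Let `P(x) = ∑_d S_d(B) x^d` for Dade's alternating sums `S_d(B)`. Let `B` be a block of positive
defect of `G` and `C` a group of prime order `q ≠ p`. There is exactly one block `B'` of the wreath
product `G ≀ C` above `B ⊗ ⋯ ⊗ B`: the characters of `G ≀ C` above the product of copies of one
character `ψ` of `B` vanish outside the base group modulo the maximal ideal, by a computation with the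
tensor-induced representation. The complexes of `p`-subgroups of `G ≀ C` fixed by a subgroup `K` can be
computed from those of `G`; a Moebius inversion gives a formula for the alternating sum of an arbitrary
function of the stabilisers. The result is `q P'(x) = P(x)^q + (q ^ 2 - 1) P(x^q)` for the generating
function `P'` of `B'`; the generating function of `B ⊗ B` is `P^2`. The equivalences follow from these
two formulas.
-/

set_option autoImplicit false

noncomputable section

namespace Pool.Agent.Results.MP_3f89b9_al.WeightedSumDecidesH60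

open Pool.Agent.Y63.KR (alternatingSum)
open Pool.Agent.Y63.NV (IsClassFun IsBlock centralValue)
open Pool.Agent.Y63.AWC (IsIrreducibleCharacter)

variable {F : Type} [Field F]

/-- `k^d(B_σ)` for `G_σ = H`: the number of the irreducible characters `θ` of the subgroup `H` of
`p`-defect `d` with `bl(θ)^G = B`. -/
def kB (p : ℕ) (red : integralClosure ℤ ℂ →+* F) {G : Type} [Group G] (B : (G → F) → F) (d : ℕ)
    (H : Subgroup G) : ℕ :=
  Nat.card {θ : H → ℂ // (IsIrreducibleCharacter θ ∧
      ∀ f : G → F, IsClassFun f → centralValue red θ (fun x => f x) = B f) ∧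
    ∃ n : ℕ, θ 1 = (n : ℂ) ∧ n.factorization p + d = (Nat.card H).factorization p}

/-- Dade's alternating sum `S_d(B) = ∑_σ (-1)^|σ| k^d(B_σ)` over representatives `σ` of the
`G`-classes of chains of nontrivial `p`-subgroups of `G`, the empty chain included. -/
def S (p : ℕ) (red : integralClosure ℤ ℂ →+* F) {G : Type} [Group G] (B : (G → F) → F) (d : ℕ) : ℤ :=
  alternatingSum p G (fun H => (kB p red B d H : ℤ))

/-- The weighted sum `∑_d S_d(B) t^d` (the terms with `d ≥ |G|` vanish). -/
def Weighted (p : ℕ) (red : integralClosure ℤ ℂ →+* F) (t : ℝ) {G : Type} [Group G]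
    (B : (G → F) → F) : ℝ := ∑ d ∈ Finset.range (Nat.card G), (S p red B d : ℝ) * t ^ d

/-- The generating polynomial `∑_d S_d(B) x^d`. -/
def P (p : ℕ) (red : integralClosure ℤ ℂ →+* F) {G : Type} [Group G] (B : (G → F) → F) :
    Polynomial ℤ :=
  ∑ d ∈ Finset.range (Nat.card G), Polynomial.C (S p red B d) * Polynomial.X ^ d

/-- `B` is a block of positive defect: all its ordinary irreducible characters have positive
`p`-defect. -/
def PositiveDefect (p : ℕ) (red : integralClosure ℤ ℂ →+* F) {G : Type} [Group G]
    (B : (G → F) → F) : Prop :=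
  ∀ χ : G → ℂ, IsIrreducibleCharacter χ →
    (∀ f : G → F, IsClassFun f → centralValue red χ f = B f) →
    ∃ n : ℕ, χ 1 = (n : ℂ) ∧ n.factorization p < (Nat.card G).factorization p

/-- The pairs of Dade's ordinary conjecture: a finite group `G` with `O_p(G) = 1` and a block `B` of
`G` of positive defect. -/
def Adm (p : ℕ) (red : integralClosure ℤ ℂ →+* F) (G : Type) (i : Group G) (B : (G → F) → F) : Prop :=
  Finite G ∧ (∀ Q : Subgroup G, Q.Normal → IsPGroup p Q → Q = ⊥) ∧ IsBlock B ∧
    PositiveDefect p red B

/-- `B'` is a block of `G × G` above (and so equal to) `B ⊗ B`. -/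
def OverSq {G : Type} [Group G] (B : (G → F) → F) (B' : ((Fin 2 → G) → F) → F) : Prop :=
  ∀ f : G → F, IsClassFun f → B' (fun x => ∏ i, f (x i)) = B f ^ 2

open Classical in
/-- `B'` is a block of `G ≀ C` above `B ⊗ ⋯ ⊗ B`. -/
def OverWr {G C : Type} [Group G] [Group C] [Fintype C] (B : (G → F) → F)
    (B' : (RegularWreathProduct G C → F) → F) : Prop :=
  ∀ f : G → F, IsClassFun f →
    B' (fun s => if s.right = 1 then ∏ c, f (s.left c) else 0) = B f ^ Fintype.card C

/-- The four conditions for a class `X` of pairs `(G, B)`. -/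
def Conditions (p : ℕ) (red : integralClosure ℤ ℂ →+* F)
    (X : (G : Type) → Group G → ((G → F) → F) → Prop) (m n₀ : ℕ) (t : ℝ) : List Prop :=
  [∀ (G : Type) [i : Group G] (B : (G → F) → F), X G i B → ∀ d, S p red B d = 0,
   ∀ (G : Type) [i : Group G] (B : (G → F) → F), X G i B → ∀ d, n₀ ≤ d → (m : ℤ) ∣ S p red B d,
   ∀ ε : ℝ, 0 < ε → ∃ c : ℝ, ∀ (G : Type) [i : Group G] (B : (G → F) → F), X G i B → ∀ d,
     (S p red B d : ℝ) ≤ c * (Nat.card G : ℝ) ^ ε,
   ∀ ε : ℝ, 0 < ε → ∃ c : ℝ, ∀ (G : Type) [i : Group G] (B : (G → F) → F), X G i B →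
     Weighted p red t B ≤ c * (Nat.card G : ℝ) ^ ε]

theorem kB_eq (p : ℕ) (red : integralClosure ℤ ℂ →+* F) {G : Type} [Group G] (B : (G → F) → F)
    (d : ℕ) (H : Subgroup G) : kB p red B d H =
      Pool.Agent.Q90.WR.anum p d
        (Pool.Agent.E8helper60.DD.IndB red B (Subtype.val : H → G)) := by
  unfold kB Pool.Agent.Q90.WR.anum
  refine Nat.card_congr (Equiv.subtypeEquivRight fun θ => ?_)
  rw [Pool.Agent.E8helper60.DD.mem_IndB]

theorem S_eq (p : ℕ) (red : integralClosure ℤ ℂ →+* F) {G : Type} [Group G] (B : (G → F) → F)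
    (d : ℕ) : S p red B d = Pool.Agent.E8helper60.DD.Sd p red B d := by
  unfold S Pool.Agent.E8helper60.DD.Sd
  simp only [kB_eq]

theorem Weighted_eq (p : ℕ) (red : integralClosure ℤ ℂ →+* F) (t : ℝ) {G : Type} [Group G]
    (B : (G → F) → F) : Weighted p red t B = Pool.Agent.E8helper60.DD.Wt p red t B := by
  unfold Weighted Pool.Agent.E8helper60.DD.Wt
  simp only [S_eq]

theorem P_eq (p : ℕ) (red : integralClosure ℤ ℂ →+* F) {G : Type} [Group G] [Finite G]
    (B : (G → F) → F) : P p red B = Pool.Agent.E8helper60.DD.Pz p red B := by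
  ext d
  rw [Pool.Agent.E8helper60.DD.Pz_coeff]
  unfold P
  rw [Polynomial.finsetSum_coeff]
  simp only [Polynomial.coeff_C_mul_X_pow, S_eq]
  rw [Finset.sum_ite_eq]
  split_ifs with h
  · rfl
  · rw [Finset.mem_range, not_lt] at h
    refine (Pool.Agent.E8helper60.DD.Sd_zero_of_lt red B (lt_of_lt_of_le ?_ h)).symm
    exact Nat.factorization_lt p Nat.card_pos.ne'

/-- **Dade's ordinary conjecture for every prime `p`: one congruence, an upper bound or one weighted
sum decides.** Let `n₀` be a natural number and `t > 1` a real number.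
(1) Let `m` be a natural number which is divisible by a prime number different from `p`. The following
are equivalent:
(i) `S_d(B) = 0` for all `d` and all pairs `(G, B)` of a finite group `G` with `O_p(G) = 1` and a block
`B` of `G` of positive defect;
(ii) `m` divides `S_d(B)` for all `d ≥ n₀` and all these pairs;
(iii) for every `ε > 0` there is a constant `c` with `S_d(B) ≤ c |G|^ε` for all `d` and all these pairs;
(iv) for every `ε > 0` there is a constant `c` with `∑_d S_d(B) t^d ≤ c |G|^ε` for all these pairs.
(2) Let `q ≠ p` be a prime number and `C` a group of order `q`. The conditions (i) to (iv) with `q ∣ m`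
are also equivalent for every class `X` of pairs of a finite group `G` and a block `B` of `G` of
positive defect which is closed under `(G, B) ↦ (G × G, B ⊗ B)` and `(G, B) ↦ (G ≀ C, B')`.
(3) For every block `B` of positive defect of a finite group `G` there is exactly one block `B'` of
`G ≀ C` above `B ⊗ ⋯ ⊗ B`, and the generating polynomials of the alternating sums satisfy
`q P(B')(x) = P(B)(x)^q + (q ^ 2 - 1) P(B)(x^q)`. -/
theorem result (p : ℕ) [Fact p.Prime] (F : Type) [Field F] [IsAlgClosed F] [CharP F p]
    (red : integralClosure ℤ ℂ →+* F) (n₀ : ℕ) (t : ℝ) (ht : 1 < t) :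
    (∀ m : ℕ, (∃ q : ℕ, q.Prime ∧ q ≠ p ∧ q ∣ m) →
      List.TFAE (Conditions p red (Adm p red) m n₀ t)) ∧
    ∀ q : ℕ, q.Prime → q ≠ p → ∀ (C : Type) [Group C] [Fintype C], Nat.card C = q →
      (∀ X : (G : Type) → Group G → ((G → F) → F) → Prop,
        (∀ (G : Type) [i : Group G] (B : (G → F) → F), X G i B →
          Finite G ∧ IsBlock B ∧ PositiveDefect p red B) →
        (∀ (G : Type) [i : Group G] (B : (G → F) → F), X G i B →
          ∀ B' : ((Fin 2 → G) → F) → F, IsBlock B' → OverSq B B' →
            X (Fin 2 → G) inferInstance B') →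
        (∀ (G : Type) [i : Group G] (B : (G → F) → F), X G i B →
          ∀ B' : (RegularWreathProduct G C → F) → F, IsBlock B' → OverWr B B' →
            X (RegularWreathProduct G C) inferInstance B') →
        ∀ m : ℕ, q ∣ m → List.TFAE (Conditions p red X m n₀ t)) ∧
      ∀ (G : Type) [Group G] [Finite G] (B : (G → F) → F), IsBlock B → PositiveDefect p red B →
        ∃ B' : (RegularWreathProduct G C → F) → F, IsBlock B' ∧ OverWr B B' ∧
          (∀ B'' : (RegularWreathProduct G C → F) → F, IsBlock B'' → OverWr B B'' →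
            ∀ f : RegularWreathProduct G C → F, IsClassFun f → B'' f = B' f) ∧
          (q : Polynomial ℤ) * P p red B' =
            P p red B ^ q + ((q ^ 2 - 1 : ℕ) : Polynomial ℤ) * Polynomial.expand ℤ q (P p red B) := by
  have hcond : ∀ (X : (G : Type) → Group G → ((G → F) → F) → Prop) (m : ℕ),
      Conditions p red X m n₀ t =
        [∀ (G : Type) [i : Group G] (B : (G → F) → F), X G i B →
           ∀ d, Pool.Agent.E8helper60.DD.Sd p red B d = 0,
         ∀ (G : Type) [i : Group G] (B : (G → F) → F), X G i B → ∀ d, n₀ ≤ d →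
           (m : ℤ) ∣ Pool.Agent.E8helper60.DD.Sd p red B d,
         ∀ ε : ℝ, 0 < ε → ∃ c : ℝ, ∀ (G : Type) [i : Group G] (B : (G → F) → F), X G i B → ∀ d,
           (Pool.Agent.E8helper60.DD.Sd p red B d : ℝ) ≤ c * (Nat.card G : ℝ) ^ ε,
         ∀ ε : ℝ, 0 < ε → ∃ c : ℝ, ∀ (G : Type) [i : Group G] (B : (G → F) → F), X G i B →
           Pool.Agent.E8helper60.DD.Wt p red t B ≤ c * (Nat.card G : ℝ) ^ ε] := by
    intro X m
    unfold Conditions
    simp only [S_eq, Weighted_eq]
  have hsq : ∀ {G : Type} [Group G] {B : (G → F) → F} {B' : ((Fin 2 → G) → F) → F},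
      Pool.Agent.E8helper60.DD.OverP B B' ↔ OverSq B B' := by
    intro G _ B B'
    unfold Pool.Agent.E8helper60.DD.OverP OverSq
    rw [Fintype.card_fin]
    exact Iff.rfl
  have hwr : ∀ {C : Type} [Group C] [Fintype C] {G : Type} [Group G] {B : (G → F) → F}
      {B' : (RegularWreathProduct G C → F) → F},
      Pool.Agent.E8helper60.DD.OverW B B' ↔ OverWr B B' := by
    intro C _ _ G _ B B'
    exact Iff.rfl
  have key : ∀ q : ℕ, q.Prime → q ≠ p → ∀ (C : Type) [Group C] [Fintype C], Nat.card C = q →
      (∀ X : (G : Type) → Group G → ((G → F) → F) → Prop,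
        (∀ (G : Type) [i : Group G] (B : (G → F) → F), X G i B →
          Finite G ∧ IsBlock B ∧ PositiveDefect p red B) →
        (∀ (G : Type) [i : Group G] (B : (G → F) → F), X G i B →
          ∀ B' : ((Fin 2 → G) → F) → F, IsBlock B' → OverSq B B' →
            X (Fin 2 → G) inferInstance B') →
        (∀ (G : Type) [i : Group G] (B : (G → F) → F), X G i B →
          ∀ B' : (RegularWreathProduct G C → F) → F, IsBlock B' → OverWr B B' →
            X (RegularWreathProduct G C) inferInstance B') →
        ∀ m : ℕ, q ∣ m → List.TFAE (Conditions p red X m n₀ t)) := by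
    intro q hq hqp C _ _ hC X h1 h2 h3 m hm
    rw [hcond]
    have hX : Pool.Agent.E8helper60.DD.Cls p red C X :=
      ⟨fun G _ B h => (h1 G B h).1, fun G _ B h => (h1 G B h).2.1, fun G _ B h => (h1 G B h).2.2,
        fun G _ B h B' h' h'' => h2 G B h B' h' (hsq.1 h''),
        fun G _ B h B' h' h'' => h3 G B h B' h' (hwr.1 h'')⟩
    exact hX.tfae hq hqp hC hm n₀ ht
  refine ⟨?_, fun q hq hqp C _ _ hC => ⟨key q hq hqp C hC, ?_⟩⟩
  · rintro m ⟨q, hq, hqp, hm⟩
    have : NeZero q := ⟨hq.ne_zero⟩
    have hC : Nat.card (Multiplicative (ZMod q)) = q := by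
      rw [Nat.card_eq_fintype_card, Fintype.card_multiplicative, ZMod.card]
    have hall := Pool.Agent.E8helper60.DD.cls_all (p := p) (red := red)
      (C := Multiplicative (ZMod q)) hq hqp hC
    exact key q hq hqp (Multiplicative (ZMod q)) hC (Adm p red)
      (fun G _ B h => ⟨h.1, h.2.2.1, h.2.2.2⟩)
      (fun G _ B h B' h' h'' => hall.sq G B h B' h' (hsq.2 h''))
      (fun G _ B h B' h' h'' => hall.wr G B h B' h' (hwr.2 h'')) m hm
  · intro G _ _ B hB hpos
    obtain ⟨χ, h1, h2⟩ := Pool.Agent.E8helper46.AW.exists_char (p := p) red hB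
    obtain ⟨χ', -, h3, h4, -⟩ := Pool.Agent.E8helper60.DD.exists_overW (p := p) red (C := C) hq hqp
      hC h1 h2
    refine ⟨_, h3, hwr.1 h4, fun B'' h5 h6 f hf =>
      Pool.Agent.E8helper60.DD.overW_unique (p := p) red hq hqp hC hB hpos h5 h3 (hwr.2 h6) h4 f hf,
      ?_⟩
    rw [P_eq, P_eq]
    exact Pool.Agent.E8helper60.DD.Pz_wr (p := p) red hq hqp hC hB hpos h3 h4

end Pool.Agent.Results.MP_3f89b9_al.WeightedSumDecidesH60
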